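import Pool.Agent.Helper420.QI.PosC
import Pool.Agent.Helper420.EV.C

open MeasureTheory Filter Topology

namespace Pool.Agent.Results.MP_7eb226_an.AllEvenExponents

/-- `u` (with weak gradient `G`) is a nonzero element of `H¹₀(Ω)`, an `L²(Ω)`-limit of smooth
functions with compact support in `Ω` whose gradients tend to `G`, and a weak solution of
`-Δu = lam ‖u‖_q^(2-q) |u|^(q-2) u` in `Ω`. -/
def IsEigenfunction (N : ℕ) (Ω : Set (EuclideanSpace ℝ (Fin N))) (q lam : ℝ)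
    (u : EuclideanSpace ℝ (Fin N) → ℝ)
    (G : EuclideanSpace ℝ (Fin N) → EuclideanSpace ℝ (Fin N)) : Prop :=
  MemLp u 2 (volume.restrict Ω) ∧ MemLp u (ENNReal.ofReal q) (volume.restrict Ω) ∧
  MemLp G 2 (volume.restrict Ω) ∧
  ¬ (u =ᵐ[volume.restrict Ω] 0) ∧
  (∃ φ : ℕ → EuclideanSpace ℝ (Fin N) → ℝ,
    (∀ n, ContDiff ℝ ((⊤ : ℕ∞) : WithTop ℕ∞) (φ n) ∧ HasCompactSupport (φ n) ∧ tsupport (φ n) ⊆ Ω) ∧
    Tendsto (fun n => eLpNorm (fun x => φ n x - u x) 2 (volume.restrict Ω)) atTop (nhds 0) ∧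
    Tendsto (fun n => eLpNorm (fun x => gradient (φ n) x - G x) 2 (volume.restrict Ω)) atTop (nhds 0)) ∧
  ∀ ψ : EuclideanSpace ℝ (Fin N) → ℝ, ContDiff ℝ ((⊤ : ℕ∞) : WithTop ℕ∞) ψ → HasCompactSupport ψ →
    tsupport ψ ⊆ Ω →
    ∫ x in Ω, inner ℝ (G x) (gradient ψ x) =
      lam * ((eLpNorm u (ENNReal.ofReal q) (volume.restrict Ω)).toReal) ^ (2 - q) *
        ∫ x in Ω, |u x| ^ (q - 2) * u x * ψ x

/-- The `q`-spectrum of the Dirichlet Laplacian on `Ω`. -/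
def Spec (N : ℕ) (Ω : Set (EuclideanSpace ℝ (Fin N))) (q : ℝ) : Set ℝ :=
  {lam | ∃ (u : EuclideanSpace ℝ (Fin N) → ℝ)
    (G : EuclideanSpace ℝ (Fin N) → EuclideanSpace ℝ (Fin N)), IsEigenfunction N Ω q lam u G}

theorem result (N : ℕ) (hN : 2 ≤ N) (Ω : Set (EuclideanSpace ℝ (Fin N))) (hΩ : IsOpen Ω)
    (hb : Bornology.IsBounded Ω) (q : ℝ) (hq : 2 < q)
    (hq' : 3 ≤ N → q < 2 * (N : ℝ) / ((N : ℝ) - 2)) :
    -- (0) for an even integer exponent the spectrum is discrete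
    (∀ k : ℕ, q = 2 * (k : ℝ) → ∀ M : ℝ, (Spec N Ω q ∩ Set.Iic M).Finite) ∧
    -- (1) the eigenvalues with a nonnegative eigenfunction are locally finite
    (∀ M : ℝ, {lam : ℝ | lam ≤ M ∧ ∃ (u : EuclideanSpace ℝ (Fin N) → ℝ)
      (G : EuclideanSpace ℝ (Fin N) → EuclideanSpace ℝ (Fin N)),
        IsEigenfunction N Ω q lam u G ∧ 0 ≤ᵐ[volume.restrict Ω] u}.Finite) ∧
    -- (2) the whole spectrum is finite up to a level beyond `2^(1-2/q) l1`
    (∀ l1 : ℝ, (∀ ψ : EuclideanSpace ℝ (Fin N) → ℝ, ContDiff ℝ ((⊤ : ℕ∞) : WithTop ℕ∞) ψ →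
        HasCompactSupport ψ → tsupport ψ ⊆ Ω →
        l1 * ((eLpNorm ψ (ENNReal.ofReal q) (volume.restrict Ω)).toReal) ^ 2 ≤
          ∫ x in Ω, ‖gradient ψ x‖ ^ 2) →
      ∃ ε : ℝ, 0 < ε ∧ (Spec N Ω q ∩ Set.Iic (2 ^ (1 - 2 / q) * l1 + ε)).Finite) ∧
    -- (3) a value all of whose eigenfunctions `u` have `|u|` as an eigenfunction is isolated
    (∀ lam0 : ℝ, (∀ (u : EuclideanSpace ℝ (Fin N) → ℝ)
        (G : EuclideanSpace ℝ (Fin N) → EuclideanSpace ℝ (Fin N)),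
        IsEigenfunction N Ω q lam0 u G →
        ∃ G' : EuclideanSpace ℝ (Fin N) → EuclideanSpace ℝ (Fin N),
          IsEigenfunction N Ω q lam0 (fun x => |u x|) G') →
      ∃ ε : ℝ, 0 < ε ∧ ∀ lam ∈ Spec N Ω q, |lam - lam0| < ε → lam = lam0) := by
  have hfin : IsFiniteMeasure ((volume : Measure (EuclideanSpace ℝ (Fin N))).restrict Ω) :=
    ⟨by rw [Measure.restrict_apply_univ]; exact hb.measure_lt_top⟩
  obtain ⟨H, i1, i2, i3, J, r, hD, hf, hbk, hs⟩ :=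
    Pool.Agent.Helper420.QI.PosC.transfer hN hΩ hb hq hq'
  have hq0 : 0 < q := by linarith
  have hf' : ∀ lam u G, IsEigenfunction N Ω q lam u G → ∃ (w : H) (c : ℝ), 0 < c ∧
      Pool.Agent.Helper420.QI.Pos.Crit J q w ∧ ‖w‖ ^ 2 = lam ∧
        J w =ᵐ[volume.restrict Ω] fun x => c * u x := hf
  have hbk' : ∀ w : H, Pool.Agent.Helper420.QI.Pos.Crit J q w →
      ∃ G, IsEigenfunction N Ω q (‖w‖ ^ 2) (J w) G := hbk
  refine ⟨fun k hk M => ?_, fun M => ?_, fun l1 hl1 => ?_, fun lam0 h0 => ?_⟩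
  · have hk2 : 2 ≤ k := by
      by_contra hlt
      have h1 : k ≤ 1 := by omega
      have h2 : (k : ℝ) ≤ 1 := by exact_mod_cast h1
      rw [hk] at hq
      linarith
    have hodd : Odd (2 * k - 1) := ⟨k - 1, by omega⟩
    have hqn : q = ((2 * k - 1 : ℕ) : ℝ) + 1 := by
      rw [Nat.cast_sub (by omega), hk]; push_cast; ring
    refine (Pool.Agent.Helper420.EV.fin_even hD (by omega) hodd hqn M).subset ?_
    rintro lam ⟨⟨u, G, hu⟩, hle⟩
    obtain ⟨w, c, hc, hw, hn, hJ⟩ := hf' lam u G hu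
    exact ⟨hle, w, hw, hn⟩
  · refine (Pool.Agent.Helper420.QI.Pos.pos_finite hD M).subset ?_
    rintro lam ⟨hM, u, G, hu, hpos⟩
    obtain ⟨w, c, hc, hw, hn, hJ⟩ := hf' lam u G hu
    refine ⟨hM, w, hw, ?_, hn⟩
    filter_upwards [hJ, hpos] with x h1 h2
    rw [h1]
    exact mul_nonneg hc.le h2
  · obtain ⟨ε, hε, hfi⟩ := Pool.Agent.Helper420.QI.Pos.low_finite hD (hs l1 hl1)
    refine ⟨ε, hε, hfi.subset ?_⟩
    rintro lam ⟨⟨u, G, hu⟩, hle⟩
    obtain ⟨w, c, hc, hw, hn, hJ⟩ := hf' lam u G hu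
    exact ⟨hle, w, hw, hn⟩
  · obtain ⟨ε, hε, hiso⟩ := Pool.Agent.Helper420.QI.Pos.iso_of hD lam0 (by
      intro u0 hc0 hl0
      obtain ⟨G, hG⟩ := hbk' u0 hc0
      rw [hl0] at hG
      obtain ⟨G', hG'⟩ := h0 _ G hG
      obtain ⟨v, c, hc, hv, hn, hJ⟩ := hf' lam0 _ G' hG'
      have hc1 : c = 1 := by
        have e1 : Pool.Agent.Helper420.QI.V1.NN J q v =
            c * Pool.Agent.Helper420.QI.V1.NN J q u0 := by
          unfold Pool.Agent.Helper420.QI.V1.NN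
          rw [eLpNorm_congr_ae hJ]
          have : (fun x => c * |J u0 x|) = c • fun x => ‖J u0 x‖ := by
            ext x; simp
          rw [this, eLpNorm_const_smul, eLpNorm_norm, ENNReal.toReal_mul]
          simp [abs_of_pos hc]
        rw [hv.1, hc0.1, mul_one] at e1
        exact e1.symm
      refine ⟨v, ?_, fun φ => ?_⟩
      · filter_upwards [hJ] with x hx
        rw [hx, hc1, one_mul]
      · rw [hv.2 φ, hn, hl0])
    refine ⟨ε, hε, ?_⟩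
    rintro lam ⟨u, G, hu⟩ hlt
    obtain ⟨w, c, hc, hw, hn, hJ⟩ := hf' lam u G hu
    rw [← hn] at hlt ⊢
    exact hiso w hw hlt

end Pool.Agent.Results.MP_7eb226_an.AllEvenExponents
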